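import Pool.Agent.Work.MP_aac176_nt.Low.Main3

set_option autoImplicit false

namespace Pool.Agent.Results.MP_aac176_nt.DoubleExp

/-- For all large `j` the number of reduced fractions `p / q` in the middle-third Cantor set with
`3 ^ j ≤ q < 3 ^ (j + 1)` is at least `2 ^ j * exp (exp ((log j) ^ (1 / 25)))`. -/
theorem result :
    ∃ J : ℕ, ∀ j : ℕ, J ≤ j →
      (2 : ℝ) ^ j * Real.exp (Real.exp ((Real.log (j : ℝ)) ^ (1 / 25 : ℝ))) ≤
        (({pq : ℕ × ℕ | Nat.Coprime pq.1 pq.2 ∧ 3 ^ j ≤ pq.2 ∧ pq.2 < 3 ^ (j + 1) ∧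
          ((pq.1 : ℝ) / (pq.2 : ℝ)) ∈ cantorSet}.ncard : ℕ) : ℝ) :=
  Pool.Agent.Work.MP_aac176_nt.Low.lower_bound3

end Pool.Agent.Results.MP_aac176_nt.DoubleExp
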