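import Pool.Agent.Work.MP_aac176_nt.Levels

set_option autoImplicit false

namespace Pool.Agent.Results.MP_aac176_nt.Levels

/-- For all `a ≥ 0` and `ε > 0`, the number of pairs `(p, q)` with `3 ^ j ≤ q < 3 ^ (j + 1)`, with
`p / q` in the middle-third Cantor set, and such that this set has at least `2 ^ (a j)` points with
denominator `q`, is at most `C * 3 ^ ((1 - a (1 - log 2 / log 3) + ε) j)`. -/
theorem result :
    ∀ a : ℝ, 0 ≤ a → ∀ ε : ℝ, 0 < ε → ∃ C : ℝ, ∀ j : ℕ,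
      (({pq : ℕ × ℕ | 3 ^ j ≤ pq.2 ∧ pq.2 < 3 ^ (j + 1) ∧
          ((pq.1 : ℝ) / (pq.2 : ℝ)) ∈ cantorSet ∧
          (2 : ℝ) ^ (a * (j : ℝ)) ≤
            (({p : ℕ | ((p : ℝ) / (pq.2 : ℝ)) ∈ cantorSet}.ncard : ℕ) : ℝ)}.ncard : ℕ) : ℝ)
        ≤ C * (3 : ℝ) ^ ((1 - a * (1 - Real.log 2 / Real.log 3) + ε) * (j : ℝ)) :=
  fun a ha ε hε => Pool.Agent.Work.MP_aac176_nt.levels a ha ε hε

end Pool.Agent.Results.MP_aac176_nt.Levels
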