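import Pool.Agent.Work.MP_aac176_nt.Quasi

set_option autoImplicit false

namespace Pool.Agent.Results.MP_aac176_nt.QuasiPeriods

/-- For all `B ≥ 1` and `ε > 0`, the number of pairs `(p, q)` with `3 ^ j ≤ q < 3 ^ (j + 1)`, with
`p / q` in the middle-third Cantor set, and such that `q` divides `3 ^ l * (3 ^ t - 1)` for some `l`
and some `1 ≤ t ≤ exp ((log j) ^ B)`, is at most `C * 3 ^ ((1 - (1 - κ) / (2 B) + ε) j)`, where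
`κ = log 2 / log 3`. -/
theorem result :
    ∀ B : ℝ, 1 ≤ B → ∀ ε : ℝ, 0 < ε → ∃ C : ℝ, ∀ j : ℕ,
      (({pq : ℕ × ℕ | 3 ^ j ≤ pq.2 ∧ pq.2 < 3 ^ (j + 1) ∧
          ((pq.1 : ℝ) / (pq.2 : ℝ)) ∈ cantorSet ∧
          ∃ l t : ℕ, 1 ≤ t ∧ (t : ℝ) ≤ Real.exp ((Real.log j) ^ B) ∧
            pq.2 ∣ 3 ^ l * (3 ^ t - 1)}.ncard : ℕ) : ℝ)
        ≤ C * (3 : ℝ) ^ ((1 - (1 - Real.log 2 / Real.log 3) / (2 * B) + ε) * (j : ℝ)) :=
  fun B hB ε hε => Pool.Agent.Work.MP_aac176_nt.periods_quasi B hB ε hε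

end Pool.Agent.Results.MP_aac176_nt.QuasiPeriods
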